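import Pool.Agent.Run7.h36.CE.Coord

/-!
# Stationary points of the squared distance: a circle and a confocal ellipse

Question 2 of the problem: a circle and a non-circular ellipse in 3-space, one focus of the ellipse
being the centre of the circle. The squared distance has at most `10` stationary points on the product
of the two curves (examples with `10` are known).

Proof. Let the semi-major axis be `1`, `r` the radius of the circle, `t` the eccentric anomaly,
`ρ = 1 - e cos t` the distance of the point `q(t)` of the ellipse from the focus, `Y` the length of its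
projection to the plane of the circle, and `(α, β)` the third coordinates of the axes of the ellipse.
If the planes are not perpendicular, the stationary points are given by `ρ ρ' = ± r Y'`. At the ends
of the major axis there are none if `α β ≠ 0`, and at most four if `α β = 0`. On each of the two open
arcs between these ends let `φ = Y' / (ρ ρ')`; then the number of solutions of `φ = ± 1 / r` is at most
`1 + #{φ = 0} + #{φ' = 0}`. With `W = N / ρ`, `N = Y Y' / sin t`, one has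
`W' = sin t Ω / ρ²`, `Ω' = -3 b α β ρ² / sin⁴ t`, and `φ'` has the sign of `j = Y² Ω - ρ³ W²`, for which
`j' = Y² Ω' - 3 e sin t ρ² W²` and `(j / ρ³)' = -3 sin t Y² G / ρ⁴`,
`G' = -5 b α β cos t ρ³ / sin⁶ t`. So `φ` has at most two zeros on each arc (one if `α β = 0`), and `φ'`
has at most one zero on the arc where `α β sin t` has the right sign, at most three zeros on the other
one, and at most one zero on each of them if `α β = 0`. The bounds are `4 + 6` and `3 + 3 + 4`.
If the planes are perpendicular, `Y` is the absolute value of a linear form `L` and the points with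
`L = 0` give up to two further pairs each; the similar count for `L' / (ρ ρ')` gives the same bounds.
-/

set_option autoImplicit false

namespace Pool.Agent.Results.MP_4e5648_mp.CircleEllipse

open Real Run7.h36.CE

/-- Euclidean 3-space -/
abbrev E3 : Type := EuclideanSpace ℝ (Fin 3)

/-- The ellipse with focus `F`, semi-major axis `a` and eccentricity `e`, parametrised by the eccentric
anomaly; `u` is the unit vector from `F` in the direction of the centre, `w` is a unit vector orthogonal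
to `u`, and `u`, `w` span the direction of the plane of the ellipse. For `e = 0` it is the circle
with centre `F` and radius `a`. -/
noncomputable def ellipse (F u w : E3) (a e t : ℝ) : E3 :=
  F + (a * (e + cos t)) • u + (a * √(1 - e ^ 2) * sin t) • w

/-- The stationary points of `d²(p, q) = ‖p - q‖²` on the product of the two curves `P` and `Q`: the
pairs `(P s, Q t)` for which both partial derivatives of `‖P s - Q t‖²` vanish. -/
def stationary (P Q : ℝ → E3) : Set (E3 × E3) :=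
  {x | ∃ s t : ℝ, x = (P s, Q t) ∧
    HasDerivAt (fun s' => ‖P s' - Q t‖ ^ 2) 0 s ∧ HasDerivAt (fun t' => ‖P s - Q t'‖ ^ 2) 0 t}

theorem hd_ellipse (F u w : E3) (a e t : ℝ) :
    HasDerivAt (ellipse F u w a e)
      ((-(a * sin t)) • u + (a * √(1 - e ^ 2) * cos t) • w) t := by
  have h1 : HasDerivAt (fun t => a * (e + cos t)) (-(a * sin t)) t :=
    (((hasDerivAt_cos t).const_add e).const_mul a).congr_deriv (by ring)
  have h2 : HasDerivAt (fun t => a * √(1 - e ^ 2) * sin t) (a * √(1 - e ^ 2) * cos t) t :=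
    (hasDerivAt_sin t).const_mul _
  exact ((h1.smul_const u).const_add F).add (h2.smul_const w)

theorem inner_zero_left {P : ℝ → E3} {P' c : E3} {s : ℝ} (hP : HasDerivAt P P' s)
    (h : HasDerivAt (fun s' => ‖P s' - c‖ ^ 2) 0 s) : inner ℝ (P s - c) P' = 0 := by
  have h1 := (hP.sub_const c).norm_sq
  have h2 := h1.unique h
  linarith

theorem inner_zero_right {Q : ℝ → E3} {Q' c : E3} {t : ℝ} (hQ : HasDerivAt Q Q' t)
    (h : HasDerivAt (fun t' => ‖c - Q t'‖ ^ 2) 0 t) : inner ℝ (c - Q t) Q' = 0 := by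
  have h1 := (hQ.const_sub c).norm_sq
  have h2 := h1.unique h
  rw [inner_neg_right] at h2
  linarith

theorem exists_angle (t : ℝ) : ∃ τ ∈ Set.Ioc (-π) π, cos τ = -cos t ∧ sin τ = sin t := by
  have h := toIocMod_mem_Ioc (two_pi_pos) (-π) (π - t)
  have h2 := self_sub_toIocDiv_zsmul two_pi_pos (-π) (π - t)
  refine ⟨toIocMod two_pi_pos (-π) (π - t), ⟨h.1, by linarith [h.2]⟩, ?_, ?_⟩
  · rw [← h2, zsmul_eq_mul, cos_sub_int_mul_two_pi, cos_pi_sub]
  · rw [← h2, zsmul_eq_mul, sin_sub_int_mul_two_pi, sin_pi_sub]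

theorem main_aux (F u₁ w₁ u₂ w₂ : E3) (r a e : ℝ) (hr : 0 < r) (ha : 0 < a) (he0 : 0 < e) (he1 : e < 1)
    (hu₁ : ‖u₁‖ = 1) (hw₁ : ‖w₁‖ = 1) (huw₁ : inner ℝ u₁ w₁ = 0)
    (hu₂ : ‖u₂‖ = 1) (hw₂ : ‖w₂‖ = 1) (huw₂ : inner ℝ u₂ w₂ = 0) :
    (stationary (ellipse F u₁ w₁ r 0) (ellipse F u₂ w₂ a e)).encard ≤ 10 := by
  -- an orthonormal basis adapted to the plane of the circle
  obtain ⟨B, hB0, hB1⟩ : ∃ B : OrthonormalBasis (Fin 3) ℝ E3, B 0 = u₁ ∧ B 1 = w₁ := by
    have hv : Orthonormal ℝ (Set.domRestrict ({0, 1} : Set (Fin 3)) (![u₁, w₁, 0] : Fin 3 → E3)) := by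
      constructor
      · rintro ⟨i, hi⟩
        rcases hi with rfl | hi
        · exact hu₁
        · rw [Set.mem_singleton_iff] at hi
          subst hi
          exact hw₁
      · rintro ⟨i, hi⟩ ⟨j, hj⟩ hij
        rcases hi with rfl | hi
        · rcases hj with rfl | hj
          · exact absurd rfl hij
          · rw [Set.mem_singleton_iff] at hj
            subst hj
            exact huw₁
        · rw [Set.mem_singleton_iff] at hi
          subst hi
          rcases hj with rfl | hj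
          · have : inner ℝ w₁ u₁ = 0 := by rw [real_inner_comm]; exact huw₁
            exact this
          · rw [Set.mem_singleton_iff] at hj
            subst hj
            exact absurd rfl hij
    obtain ⟨B, hB⟩ := hv.exists_orthonormalBasis_extension_of_card_eq (by simp)
    exact ⟨B, by simpa using hB 0 (by simp), by simpa using hB 1 (by simp)⟩
  have hsum := fun p q : E3 => B.sum_inner_mul_inner p q
  simp only [Fin.sum_univ_three, hB0, hB1] at hsum
  have hx := hsum u₂ u₂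
  have hy := hsum w₂ w₂
  have hxy := hsum u₂ w₂
  rw [real_inner_self_eq_norm_sq, hu₂] at hx
  rw [real_inner_self_eq_norm_sq, hw₂] at hy
  rw [huw₂] at hxy
  obtain ⟨p0, hp0⟩ : ∃ z, z = inner ℝ u₂ u₁ := ⟨_, rfl⟩
  obtain ⟨p1, hp1⟩ : ∃ z, z = inner ℝ u₂ w₁ := ⟨_, rfl⟩
  obtain ⟨p2, hp2⟩ : ∃ z, z = inner ℝ u₂ (B 2) := ⟨_, rfl⟩
  obtain ⟨q0, hq0⟩ : ∃ z, z = inner ℝ w₂ u₁ := ⟨_, rfl⟩
  obtain ⟨q1, hq1⟩ : ∃ z, z = inner ℝ w₂ w₁ := ⟨_, rfl⟩
  obtain ⟨q2, hq2⟩ : ∃ z, z = inner ℝ w₂ (B 2) := ⟨_, rfl⟩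
  rw [real_inner_comm u₂ u₁, real_inner_comm u₂ w₁, real_inner_comm u₂ (B 2), ← hp0, ← hp1, ← hp2] at hx
  rw [real_inner_comm w₂ u₁, real_inner_comm w₂ w₁, real_inner_comm w₂ (B 2), ← hq0, ← hq1, ← hq2] at hy
  rw [real_inner_comm w₂ u₁, real_inner_comm w₂ w₁, real_inner_comm w₂ (B 2), ← hq0, ← hq1, ← hq2,
    ← hp0, ← hp1, ← hp2] at hxy
  have he2 : 0 < 1 - e ^ 2 := by nlinarith
  have hb0 : 0 < √(1 - e ^ 2) := Real.sqrt_pos.2 he2
  have hb : √(1 - e ^ 2) ^ 2 = 1 - e ^ 2 := Real.sq_sqrt he2.le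
  have key := sol_le_ten (x₁ := -p0) (x₂ := -p1) (α := -p2) (y₁ := q0) (y₂ := q1) (β := q2)
    (a := a) (r := r) hb hb0 he0 he1 ha hr (by linarith) (by linarith) (by linarith)
  refine le_trans ?_ key
  refine le_trans (Set.encard_le_encard ?_) (Set.encard_image_le
    (fun p : ℝ × ℝ × ℝ => ((F + (r * p.1) • u₁ + (r * p.2.1) • w₁,
      F + (a * (e - cos p.2.2)) • u₂ + (a * √(1 - e ^ 2) * sin p.2.2) • w₂) : E3 × E3)) _)
  rintro x ⟨s, t, rfl, h1, h2⟩
  have h1' := inner_zero_left (hd_ellipse F u₁ w₁ r 0 s) h1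
  have h2' := inner_zero_right (hd_ellipse F u₂ w₂ a e t) h2
  obtain ⟨τ, hτ, hcτ, hsτ⟩ := exists_angle t
  have hct : cos t = -cos τ := by linarith
  have hdiff : ellipse F u₁ w₁ r 0 s - ellipse F u₂ w₂ a e t =
      (r * cos s) • u₁ + (r * sin s) • w₁ - (a * (e - cos τ)) • u₂
        - (a * √(1 - e ^ 2) * sin τ) • w₂ := by
    unfold ellipse
    rw [hct, hsτ]
    have : √(1 - (0 : ℝ) ^ 2) = 1 := by norm_num
    rw [this, zero_add, mul_one, ← sub_eq_add_neg]
    abel
  have hs0 : √(1 - (0 : ℝ) ^ 2) = 1 := by norm_num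
  have huu : inner ℝ u₁ u₁ = (1 : ℝ) := by rw [real_inner_self_eq_norm_sq, hu₁]; norm_num
  have hww : inner ℝ w₁ w₁ = (1 : ℝ) := by rw [real_inner_self_eq_norm_sq, hw₁]; norm_num
  have huu2 : inner ℝ u₂ u₂ = (1 : ℝ) := by rw [real_inner_self_eq_norm_sq, hu₂]; norm_num
  have hww2 : inner ℝ w₂ w₂ = (1 : ℝ) := by rw [real_inner_self_eq_norm_sq, hw₂]; norm_num
  have hwu : inner ℝ w₁ u₁ = (0 : ℝ) := by rw [real_inner_comm]; exact huw₁
  have hwu2 : inner ℝ w₂ u₂ = (0 : ℝ) := by rw [real_inner_comm]; exact huw₂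
  have g0 : inner ℝ u₁ u₂ = p0 := by rw [real_inner_comm]; exact hp0.symm
  have g1 : inner ℝ w₁ u₂ = p1 := by rw [real_inner_comm]; exact hp1.symm
  have g2 : inner ℝ u₁ w₂ = q0 := by rw [real_inner_comm]; exact hq0.symm
  have g3 : inner ℝ w₁ w₂ = q1 := by rw [real_inner_comm]; exact hq1.symm
  rw [hdiff] at h1' h2'
  simp only [inner_sub_left, inner_add_left, inner_add_right, real_inner_smul_left,
    real_inner_smul_right, huu, hww, huu2, hww2, hwu, hwu2, huw₁, huw₂, g0, g1, g2, g3, ← hp0, ← hp1,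
    ← hq0, ← hq1, hs0] at h1' h2'
  refine ⟨(cos s, sin s, τ), ⟨hτ, ?_, ?_, ?_⟩, ?_⟩
  · simp only; rw [add_comm]; exact sin_sq_add_cos_sq s
  · simp only
    have hra : r * a ≠ 0 := mul_ne_zero hr.ne' ha.ne'
    refine mul_left_cancel₀ hra ?_
    unfold St
    linear_combination h1'
  · simp only
    have haa : a ≠ 0 := ha.ne'
    refine mul_left_cancel₀ haa ?_
    unfold Sp rho
    rw [hct, ← hsτ] at h2'
    linear_combination (-1) * h2' + a ^ 2 * sin τ * cos τ * hb
  · simp only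
    unfold ellipse
    rw [hct, ← hsτ, hs0, zero_add, mul_one, ← sub_eq_add_neg]

theorem stationary_swap (P Q : ℝ → E3) : stationary P Q = Prod.swap '' stationary Q P := by
  have h : ∀ P Q : ℝ → E3, Prod.swap '' stationary Q P ⊆ stationary P Q := by
    rintro P Q _ ⟨x, ⟨s, t, rfl, h1, h2⟩, rfl⟩
    refine ⟨t, s, rfl, ?_, ?_⟩
    · simpa only [norm_sub_rev] using h2
    · simpa only [norm_sub_rev] using h1
  refine Set.Subset.antisymm ?_ (h P Q)
  intro x hx
  exact ⟨x.swap, h Q P ⟨x, hx, rfl⟩, Prod.swap_swap x⟩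

/-- **Question 2.** Let two ellipses in 3-space have the common focus `F`, and let exactly one of them be
a circle. Then the squared distance has finitely many stationary points, and at most `10` of them. -/
theorem result (F u₁ w₁ u₂ w₂ : E3) (a₁ e₁ a₂ e₂ : ℝ)
    (ha₁ : 0 < a₁) (he₁ : 0 ≤ e₁) (he₁' : e₁ < 1) (ha₂ : 0 < a₂) (he₂ : 0 ≤ e₂) (he₂' : e₂ < 1)
    (hu₁ : ‖u₁‖ = 1) (hw₁ : ‖w₁‖ = 1) (huw₁ : inner ℝ u₁ w₁ = 0)
    (hu₂ : ‖u₂‖ = 1) (hw₂ : ‖w₂‖ = 1) (huw₂ : inner ℝ u₂ w₂ = 0)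
    (hone : (e₁ = 0 ∧ e₂ ≠ 0) ∨ (e₁ ≠ 0 ∧ e₂ = 0)) :
    (stationary (ellipse F u₁ w₁ a₁ e₁) (ellipse F u₂ w₂ a₂ e₂)).Finite ∧
    (stationary (ellipse F u₁ w₁ a₁ e₁) (ellipse F u₂ w₂ a₂ e₂)).ncard ≤ 10 := by
  have h : (stationary (ellipse F u₁ w₁ a₁ e₁) (ellipse F u₂ w₂ a₂ e₂)).encard ≤ 10 := by
    rcases hone with ⟨h1, h2⟩ | ⟨h1, h2⟩
    · subst h1
      exact main_aux F u₁ w₁ u₂ w₂ a₁ a₂ e₂ ha₁ ha₂ (lt_of_le_of_ne he₂ h2.symm) he₂' hu₁ hw₁ huw₁
        hu₂ hw₂ huw₂
    · subst h2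
      rw [stationary_swap]
      exact (Set.encard_image_le _ _).trans (main_aux F u₂ w₂ u₁ w₁ a₂ a₁ e₁ ha₂ ha₁
        (lt_of_le_of_ne he₁ h1.symm) he₁' hu₂ hw₂ huw₂ hu₁ hw₁ huw₁)
  have hfin : (stationary (ellipse F u₁ w₁ a₁ e₁) (ellipse F u₂ w₂ a₂ e₂)).Finite :=
    Set.finite_of_encard_le_coe (k := 10) (by exact_mod_cast h)
  refine ⟨hfin, ?_⟩
  rw [← hfin.cast_ncard_eq] at h
  exact_mod_cast h

end Pool.Agent.Results.MP_4e5648_mp.CircleEllipse
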